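import Mathlib
import Pool.Agent.R34.DS.Final

/-!
# MP_1aa2a2_co, Q1: for all `a, b ≥ 1` the class of graphs without an induced double star
`S_{a,b}` is DOM-bounded
-/

set_option autoImplicit false

namespace Pool.Agent.Results.MP_1aa2a2_co.DoubleStars

open Finset

/-- The double star `S_{a,b}`: the two centres are `inl false` and `inl true`, which are adjacent;
the `a` vertices `inr (inl i)` are pendant at the first centre and the `b` vertices `inr (inr j)`
are pendant at the second centre. -/
def doubleStar (a b : ℕ) : SimpleGraph (Bool ⊕ (Fin a ⊕ Fin b)) :=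
  SimpleGraph.fromRel (fun u v => match u, v with
    | .inl false, .inl true => True
    | .inl false, .inr (.inl _) => True
    | .inl true, .inr (.inr _) => True
    | _, _ => False)

/-- `G` is `H`-free: no induced subgraph of `G` is isomorphic to `H`. -/
def Free {W V : Type} (H : SimpleGraph W) (G : SimpleGraph V) : Prop := IsEmpty (H ↪g G)

/-- `X` is a dominating set of `G`: every vertex is in `X` or has a neighbour in `X`. -/
def Dominating {V : Type} (G : SimpleGraph V) (X : Set V) : Prop :=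
  ∀ v, v ∈ X ∨ ∃ x ∈ X, G.Adj x v

/-- The domatic number: the largest `k` such that the vertex set can be partitioned into `k`
dominating sets (the parts are the fibres of a map to `Fin k`). -/
noncomputable def dom {V : Type} (G : SimpleGraph V) : ℕ :=
  sSup {k : ℕ | ∃ c : V → Fin k, ∀ i : Fin k, Dominating G {v | c v = i}}

/-- A class of graphs is DOM-bounded: there is a nondecreasing unbounded function `f` from the
nonnegative integers to the positive reals with `dom G ≥ f (δ(G))` for every finite (nonempty)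
graph `G` of the class. -/
def DomBounded (𝒢 : ∀ V : Type, SimpleGraph V → Prop) : Prop :=
  ∃ f : ℕ → ℝ, Monotone f ∧ (∀ n, 0 < f n) ∧ (∀ M : ℝ, ∃ n, M ≤ f n) ∧
    ∀ (V : Type) [Fintype V] [Nonempty V] (G : SimpleGraph V) [DecidableRel G.Adj],
      𝒢 V G → f G.minDegree ≤ dom G

section Aux

variable {V : Type}

lemma mem_le_card [Fintype V] [Nonempty V] (G : SimpleGraph V) {k : ℕ}
    (h : ∃ c : V → Fin k, ∀ i : Fin k, Dominating G {v | c v = i}) : k ≤ Fintype.card V := by
  obtain ⟨c, hc⟩ := h
  have hsurj : Function.Surjective c := by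
    intro i
    obtain ⟨v⟩ := (inferInstance : Nonempty V)
    rcases hc i v with h1 | ⟨x, h1, _⟩
    · exact ⟨v, h1⟩
    · exact ⟨x, h1⟩
  have := Fintype.card_le_of_surjective c hsurj
  rwa [Fintype.card_fin] at this

lemma le_dom [Fintype V] [Nonempty V] (G : SimpleGraph V) {k : ℕ}
    (h : ∃ c : V → Fin k, ∀ i : Fin k, Dominating G {v | c v = i}) : k ≤ dom G := by
  unfold dom
  apply le_csSup
  · exact ⟨Fintype.card V, fun l hl => mem_le_card G hl⟩
  · exact h

lemma one_le_dom [Fintype V] [Nonempty V] (G : SimpleGraph V) : 1 ≤ dom G := by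
  apply le_dom
  refine ⟨fun _ => 0, fun i v => Or.inl ?_⟩
  show (0 : Fin 1) = i
  exact Subsingleton.elim _ _

/-- an injection of `Fin n` into a set with at least `n` elements -/
lemma exists_emb {A : Finset V} {n : ℕ} (h : n ≤ A.card) :
    ∃ f : Fin n → V, Function.Injective f ∧ ∀ i, f i ∈ A := by
  obtain ⟨B, hB, hBc⟩ := Finset.exists_subset_card_eq h
  refine ⟨fun i => ((Finset.equivFinOfCardEq hBc).symm i).1, ?_, ?_⟩
  · intro i j hij
    exact (Finset.equivFinOfCardEq hBc).symm.injective (Subtype.ext hij)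
  · intro i
    exact hB ((Finset.equivFinOfCardEq hBc).symm i).2

lemma dsf_of_free [Fintype V] {G : SimpleGraph V} {a b : ℕ} (h : Free (doubleStar a b) G) :
    Pool.Agent.R34.DS.DSF G (max a b) := by
  intro x y A B hxy hA hB hA2 hB2 hAi hBi hAB
  obtain ⟨fa, hfa, hfaA⟩ := exists_emb (A := A) (n := a) (by rw [hA]; exact le_max_left _ _)
  obtain ⟨fb, hfb, hfbB⟩ := exists_emb (A := B) (n := b) (by rw [hB]; exact le_max_right _ _)
  set F : Bool ⊕ (Fin a ⊕ Fin b) → V :=
    Sum.elim (fun t => cond t y x) (Sum.elim fa fb) with hF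
  have e1 : F (Sum.inl false) = x := rfl
  have e2 : F (Sum.inl true) = y := rfl
  have e3 : ∀ i, F (Sum.inr (Sum.inl i)) = fa i := fun _ => rfl
  have e4 : ∀ j, F (Sum.inr (Sum.inr j)) = fb j := fun _ => rfl
  have n1 : x ≠ y := hxy.ne
  have n2 : ∀ i, x ≠ fa i := fun i => (hA2 _ (hfaA i)).1.ne
  have n3 : ∀ j, x ≠ fb j := fun j => ((hB2 _ (hfbB j)).2.2).symm
  have n4 : ∀ i, y ≠ fa i := fun i => ((hA2 _ (hfaA i)).2.2).symm
  have n5 : ∀ j, y ≠ fb j := fun j => (hB2 _ (hfbB j)).1.ne
  have n6 : ∀ i j, fa i ≠ fb j := by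
    intro i j hij
    apply (hB2 _ (hfbB j)).2.1
    rw [← hij]
    exact (hA2 _ (hfaA i)).1
  have a1 : ∀ i, G.Adj x (fa i) := fun i => (hA2 _ (hfaA i)).1
  have a2 : ∀ j, G.Adj y (fb j) := fun j => (hB2 _ (hfbB j)).1
  have b1 : ∀ i, ¬ G.Adj y (fa i) := fun i => (hA2 _ (hfaA i)).2.1
  have b2 : ∀ j, ¬ G.Adj x (fb j) := fun j => (hB2 _ (hfbB j)).2.1
  have b3 : ∀ i j, ¬ G.Adj (fa i) (fa j) := fun i j => hAi _ (hfaA i) _ (hfaA j)
  have b4 : ∀ i j, ¬ G.Adj (fb i) (fb j) := fun i j => hBi _ (hfbB i) _ (hfbB j)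
  have b5 : ∀ i j, ¬ G.Adj (fa i) (fb j) := fun i j => hAB _ (hfaA i) _ (hfbB j)
  have hinj : Function.Injective F := by
    rintro ((_ | _) | (i | i)) ((_ | _) | (j | j)) hij
    · rfl
    · exact absurd hij n1
    · exact absurd hij (n2 j)
    · exact absurd hij (n3 j)
    · exact absurd hij n1.symm
    · rfl
    · exact absurd hij (n4 j)
    · exact absurd hij (n5 j)
    · exact absurd hij (n2 i).symm
    · exact absurd hij (n4 i).symm
    · rw [hfa hij]
    · exact absurd hij (n6 i j)
    · exact absurd hij (n3 i).symm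
    · exact absurd hij (n5 i).symm
    · exact absurd hij (n6 j i).symm
    · rw [hfb hij]
  have hadj : ∀ u w, G.Adj (F u) (F w) ↔ (doubleStar a b).Adj u w := by
    rintro ((_ | _) | (i | i)) ((_ | _) | (j | j))
    all_goals
      unfold doubleStar
      rw [SimpleGraph.fromRel_adj]
    · simp [e1]
    · simpa [e1, e2] using hxy
    · simpa [e1, e3] using a1 j
    · simpa [e1, e4] using b2 j
    · simpa [e1, e2] using hxy.symm
    · simp [e2]
    · simpa [e2, e3] using b1 j
    · simpa [e2, e4] using a2 j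
    · simpa [e1, e3] using (a1 i).symm
    · simpa [e2, e3] using (fun h => b1 i (SimpleGraph.Adj.symm h))
    · simpa [e3] using b3 i j
    · simpa [e3, e4] using b5 i j
    · simpa [e1, e4] using (fun h => b2 i (SimpleGraph.Adj.symm h))
    · simpa [e2, e4] using (a2 i).symm
    · simpa [e3, e4] using (fun h => b5 j i (SimpleGraph.Adj.symm h))
    · simpa [e4] using b4 i j
  exact h.elim ⟨⟨F, hinj⟩, fun {u w} => hadj u w⟩

end Aux

/-- For all integers `a, b ≥ 1` the class of `S_{a,b}`-free graphs is DOM-bounded. -/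
theorem result (a b : ℕ) (ha : 1 ≤ a) (_hb : 1 ≤ b) :
    DomBounded (fun _ G => Free (doubleStar a b) G) := by
  have hk : 1 ≤ max a b := le_trans ha (le_max_left _ _)
  have hcol : ∀ m : ℕ, ∃ D : ℕ, 1 ≤ m → ∀ (V : Type) [Fintype V]
      (G : SimpleGraph V), Pool.Agent.R34.DS.DSF G (max a b) →
        (∀ v, D ≤ Pool.Agent.R34.DS.dg G v) →
        ∃ col : V → Fin m, ∀ v γ, ∃ x, G.Adj v x ∧ col x = γ := by
    intro m
    by_cases hm : 1 ≤ m
    · obtain ⟨D, hD⟩ := Pool.Agent.R34.DS.colouring (max a b) m hk hm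
      exact ⟨D, fun _ => hD⟩
    · exact ⟨0, fun h => absurd h hm⟩
  choose D hD using hcol
  set g : ℕ → ℕ := fun d => max 1 (((range (d + 1)).filter (fun m => D m ≤ d)).sup id) with hg
  have hgmono : Monotone g := by
    intro d e hde
    rw [hg]
    simp only
    apply max_le_max le_rfl
    apply Finset.sup_mono
    intro m hm
    rw [mem_filter, mem_range] at hm ⊢
    omega
  refine ⟨fun d => (g d : ℝ), ?_, ?_, ?_, ?_⟩
  · intro d e hde
    simp only
    exact_mod_cast hgmono hde
  · intro n
    have : 1 ≤ g n := le_max_left _ _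
    show (0 : ℝ) < (g n : ℝ)
    exact_mod_cast this
  · intro M
    obtain ⟨m, hm⟩ := exists_nat_ge M
    refine ⟨max m (D m), hm.trans ?_⟩
    have h1 : m ≤ g (max m (D m)) := by
      refine le_trans ?_ (le_max_right _ _)
      have h2 : m ∈ (range (max m (D m) + 1)).filter (fun l => D l ≤ max m (D m)) := by
        rw [mem_filter, mem_range]
        exact ⟨Nat.lt_succ_of_le (le_max_left _ _), le_max_right _ _⟩
      exact Finset.le_sup (f := id) h2
    show (m : ℝ) ≤ (g (max m (D m)) : ℝ)
    exact_mod_cast h1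
  · intro V _ _ G _ hG
    have hdg : ∀ v, G.minDegree ≤ Pool.Agent.R34.DS.dg G v := by
      intro v
      refine (G.minDegree_le_degree v).trans (le_of_eq ?_)
      unfold Pool.Agent.R34.DS.dg
      rw [← SimpleGraph.card_neighborFinset_eq_degree]
      congr 1
      ext u
      rw [SimpleGraph.mem_neighborFinset, Pool.Agent.R34.DS.mem_nb]
    have hdsf := dsf_of_free hG
    have key : g G.minDegree ≤ dom G := by
      rw [hg]
      simp only
      apply max_le (one_le_dom G)
      apply Finset.sup_le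
      intro m hm
      rw [mem_filter, mem_range] at hm
      show m ≤ dom G
      by_cases h1 : 1 ≤ m
      · obtain ⟨col, hcol⟩ := hD m h1 V G hdsf (fun v => hm.2.trans (hdg v))
        apply le_dom
        refine ⟨col, fun i v => Or.inr ?_⟩
        obtain ⟨x, hx1, hx2⟩ := hcol v i
        exact ⟨x, hx2, hx1.symm⟩
      · omega
    show (g G.minDegree : ℝ) ≤ (dom G : ℝ)
    exact_mod_cast key

end Pool.Agent.Results.MP_1aa2a2_co.DoubleStars
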